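import Pool.Agent.KS6_33.FD.Ineq

/-!
# Block averages and the energy increment

`av b f t q` is the mean of `f` over the block `q b^t + 1, …, (q + 1) b^t`, `b = k + 1`.
-/

set_option autoImplicit false

namespace Pool.Agent.KS6_33.FD

open Finset

/-- sum over a block -/
noncomputable def bs (f : ℕ → ℝ) (m q : ℕ) : ℝ := ∑ r ∈ range m, f (q * m + r + 1)

lemma sum_range_mul (g : ℕ → ℝ) (a m : ℕ) :
    ∑ r ∈ range (a * m), g r = ∑ i ∈ range a, ∑ r ∈ range m, g (i * m + r) := by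
  induction a with
  | zero => simp
  | succ a ih => rw [add_mul, one_mul, sum_range_add, ih, sum_range_succ]

lemma bs_mul (f : ℕ → ℝ) (k m q : ℕ) :
    bs f ((k + 1) * m) q = ∑ i : Fin (k + 1), bs f m ((k + 1) * q + i) := by
  unfold bs
  rw [sum_range_mul, Finset.sum_range]
  refine sum_congr rfl fun i _ => sum_congr rfl fun r _ => ?_
  congr 1
  ring

/-- mean over a block of length `(k + 1) ^ t` -/
noncomputable def av (k : ℕ) (f : ℕ → ℝ) (t q : ℕ) : ℝ := bs f ((k + 1) ^ t) q / ((k : ℝ) + 1) ^ t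

lemma av_succ (k : ℕ) (f : ℕ → ℝ) (t q : ℕ) :
    av k f (t + 1) q = (∑ i : Fin (k + 1), av k f t ((k + 1) * q + i)) / ((k : ℝ) + 1) := by
  unfold av
  rw [pow_succ', bs_mul, ← sum_div, pow_succ, div_div]

lemma av_mem (k : ℕ) (f : ℕ → ℝ) (hf : ∀ x, 0 ≤ f x ∧ f x ≤ 1) (t q : ℕ) :
    0 ≤ av k f t q ∧ av k f t q ≤ 1 := by
  unfold av bs
  refine ⟨div_nonneg (sum_nonneg fun r _ => (hf _).1) (by positivity), ?_⟩
  rw [div_le_one (by positivity)]
  refine (sum_le_sum fun r _ => (hf _).2).trans ?_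
  simp

/-- squared deviation at a node of level `t + 1` -/
noncomputable def dev (k : ℕ) (f : ℕ → ℝ) (t q : ℕ) : ℝ :=
  ∑ i : Fin (k + 1), (av k f t ((k + 1) * q + i) - av k f (t + 1) q) ^ 2

lemma sq_sum (k : ℕ) (f : ℕ → ℝ) (t N : ℕ) :
    ∑ q ∈ range ((k + 1) * N), (av k f t q) ^ 2 =
      ((k : ℝ) + 1) * ∑ q ∈ range N, (av k f (t + 1) q) ^ 2 + ∑ q ∈ range N, dev k f t q := by
  rw [mul_comm (k + 1) N, sum_range_mul, mul_sum, ← sum_add_distrib]
  refine sum_congr rfl fun q _ => ?_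
  have h := var_id k fun i => av k f t ((k + 1) * q + i)
  unfold dev
  rw [av_succ, ← h, Finset.sum_range]
  refine sum_congr rfl fun i _ => ?_
  rw [mul_comm q]

/-- The energy increment: the sum over the levels `t < T` of the normalised deviations is at most
`1`. -/
lemma energy (k : ℕ) (f : ℕ → ℝ) (hf : ∀ x, 0 ≤ f x ∧ f x ≤ 1) (T : ℕ) :
    ∑ t ∈ range T, (∑ q ∈ range ((k + 1) ^ (T - 1 - t)), dev k f t q) / ((k : ℝ) + 1) ^ (T - t) ≤
      1 := by
  have hk : (0 : ℝ) < (k : ℝ) + 1 := by positivity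
  have key : ∀ s, s ≤ T →
      ∑ t ∈ range s, (∑ q ∈ range ((k + 1) ^ (T - 1 - t)), dev k f t q) / ((k : ℝ) + 1) ^ (T - t) =
        (∑ q ∈ range ((k + 1) ^ T), (av k f 0 q) ^ 2) / ((k : ℝ) + 1) ^ T -
          (∑ q ∈ range ((k + 1) ^ (T - s)), (av k f s q) ^ 2) / ((k : ℝ) + 1) ^ (T - s) := by
    intro s
    induction s with
    | zero => intro _; simp
    | succ s ih =>
      intro hs
      rw [sum_range_succ, ih (by omega)]
      have h1 : T - s = (T - 1 - s) + 1 := by omega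
      have h2 : T - (s + 1) = T - 1 - s := by omega
      rw [h1, h2, pow_succ' (k + 1), sq_sum, pow_succ' ((k : ℝ) + 1)]
      field_simp
      ring
  rw [key T le_rfl]
  have h1 : 0 ≤ (∑ q ∈ range ((k + 1) ^ (T - T)), (av k f T q) ^ 2) / ((k : ℝ) + 1) ^ (T - T) := by
    positivity
  have h2 : (∑ q ∈ range ((k + 1) ^ T), (av k f 0 q) ^ 2) / ((k : ℝ) + 1) ^ T ≤ 1 := by
    rw [div_le_one (by positivity)]
    refine (sum_le_sum (g := fun _ => (1 : ℝ)) fun q _ => ?_).trans (by simp)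
    obtain ⟨h3, h4⟩ := av_mem k f hf 0 q
    nlinarith
  linarith

end Pool.Agent.KS6_33.FD
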