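import Mathlib

/-!
# Elementary inequalities

`p (1 - p) ^ k ≤ k ^ k / (k + 1) ^ (k + 1)`, and products of numbers in the unit interval.
-/

set_option autoImplicit false

namespace Pool.Agent.KS6_33.FD

open Finset

lemma bern (k : ℕ) (t : ℝ) (ht : 0 ≤ t) : ((k : ℝ) + 1) * t ^ k ≤ k * t ^ (k + 1) + 1 := by
  induction k with
  | zero => simp
  | succ k ih =>
    have h1 : 0 ≤ (t ^ (k + 1) - 1) * (t - 1) := by
      rcases le_total t 1 with h | h
      · have := pow_le_one₀ (n := k + 1) ht h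
        nlinarith
      · have := one_le_pow₀ (n := k + 1) h
        nlinarith
    have h2 := mul_le_mul_of_nonneg_left ih ht
    push_cast
    have e1 : t ^ (k + 1) = t * t ^ k := by ring
    have e2 : t ^ (k + 1 + 1) = t * t ^ (k + 1) := by ring
    nlinarith

/-- `p (1 - p) ^ k ≤ k ^ k / (k + 1) ^ (k + 1)`. -/
lemma max_le (k : ℕ) (hk : 1 ≤ k) (p : ℝ) (h1 : p ≤ 1) :
    p * (1 - p) ^ k ≤ (k : ℝ) ^ k / ((k : ℝ) + 1) ^ (k + 1) := by
  have hk0 : (0 : ℝ) < k := by exact_mod_cast hk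
  set t : ℝ := ((k : ℝ) + 1) * (1 - p) / k with ht
  have ht0 : 0 ≤ t := by
    apply div_nonneg _ hk0.le
    nlinarith
  have h := bern k t ht0
  have e1 : 1 - p = k * t / (k + 1) := by
    rw [ht]; field_simp
  have e2 : p = 1 - k * t / (k + 1) := by linarith
  rw [le_div_iff₀ (by positivity), e1]
  have e3 : p * (↑k * t / (↑k + 1)) ^ k * ((k : ℝ) + 1) ^ (k + 1) =
      (k : ℝ) ^ k * (t ^ k * (p * ((k : ℝ) + 1))) := by
    rw [div_pow, mul_pow]
    field_simp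
    ring
  rw [e3]
  have e4 : t ^ k * (p * ((k : ℝ) + 1)) = ((k : ℝ) + 1) * t ^ k - k * t ^ (k + 1) := by
    rw [e2]; field_simp; ring
  rw [e4]
  have := pow_pos hk0 k
  nlinarith

lemma prod_mem {ι : Type} (s : Finset ι) (a : ι → ℝ) (ha : ∀ i ∈ s, 0 ≤ a i ∧ a i ≤ 1) :
    0 ≤ ∏ i ∈ s, a i ∧ ∏ i ∈ s, a i ≤ 1 :=
  ⟨prod_nonneg fun i hi => (ha i hi).1, prod_le_one (fun i hi => (ha i hi).1) fun i hi => (ha i hi).2⟩

lemma prod_le_add {ι : Type} [DecidableEq ι] (s : Finset ι) (a b : ι → ℝ)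
    (ha : ∀ i ∈ s, 0 ≤ a i ∧ a i ≤ 1) (hb : ∀ i ∈ s, 0 ≤ b i ∧ b i ≤ 1) :
    ∏ i ∈ s, a i ≤ ∏ i ∈ s, b i + ∑ i ∈ s, |a i - b i| := by
  induction s using Finset.induction_on with
  | empty => simp
  | insert i s hi ih =>
    rw [prod_insert hi, prod_insert hi, sum_insert hi]
    have h1 := ih (fun j hj => ha j (mem_insert_of_mem hj)) (fun j hj => hb j (mem_insert_of_mem hj))
    obtain ⟨h2, h3⟩ := prod_mem s a fun j hj => ha j (mem_insert_of_mem hj)
    obtain ⟨h4, h5⟩ := prod_mem s b fun j hj => hb j (mem_insert_of_mem hj)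
    obtain ⟨h6, h7⟩ := ha i (mem_insert_self i s)
    obtain ⟨h8, h9⟩ := hb i (mem_insert_self i s)
    have h10 : 0 ≤ ∑ j ∈ s, |a j - b j| := sum_nonneg fun j _ => abs_nonneg _
    have h11 := le_abs_self (a i - b i)
    have h12 := abs_nonneg (a i - b i)
    -- a A = (a - b) A + b A ≤ |a - b| + b (B + Σ)
    have h13 : (a i - b i) * ∏ j ∈ s, a j ≤ |a i - b i| :=
      (mul_le_mul_of_nonneg_right h11 h2).trans (mul_le_of_le_one_right h12 h3)
    have h14 : b i * ∏ j ∈ s, a j ≤ b i * (∏ j ∈ s, b j + ∑ j ∈ s, |a j - b j|) :=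
      mul_le_mul_of_nonneg_left h1 h8
    have h15 : b i * ∑ j ∈ s, |a j - b j| ≤ ∑ j ∈ s, |a j - b j| :=
      mul_le_of_le_one_left h10 h9
    nlinarith

/-- the product at a node, compared with the value at the mean -/
lemma node (k : ℕ) (hk : 1 ≤ k) (δ : ℝ) (hδ : 0 < δ) (d : Fin (k + 1) → ℝ)
    (hd : ∀ i, 0 ≤ d i ∧ d i ≤ 1) (e : ℝ) (he : 0 ≤ e ∧ e ≤ 1) :
    ∏ i, (if i = 0 then d i else 1 - d i) ≤
      (k : ℝ) ^ k / ((k : ℝ) + 1) ^ (k + 1) + ((k : ℝ) + 1) * δ / 2 +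
        (1 / (2 * δ)) * ∑ i, (d i - e) ^ 2 := by
  classical
  have h1 := prod_le_add (univ : Finset (Fin (k + 1))) (fun i => if i = 0 then d i else 1 - d i)
    (fun i => if i = 0 then e else 1 - e)
    (fun i _ => by
      have := hd i
      split_ifs
      · exact this
      · constructor <;> linarith [this.1, this.2])
    (fun i _ => by
      split_ifs
      · exact he
      · constructor <;> linarith [he.1, he.2])
  have h2 : ∏ i : Fin (k + 1), (if i = 0 then e else 1 - e) = e * (1 - e) ^ k := by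
    rw [Fin.prod_univ_succ]
    simp [Fin.succ_ne_zero]
  have h3 : ∑ i : Fin (k + 1), |(if i = 0 then d i else 1 - d i) - (if i = 0 then e else 1 - e)| ≤
      ∑ i : Fin (k + 1), ((1 / (2 * δ)) * (d i - e) ^ 2 + δ / 2) := by
    apply sum_le_sum
    intro i _
    have h4 : |(if i = 0 then d i else 1 - d i) - (if i = 0 then e else 1 - e)| = |d i - e| := by
      split_ifs
      · rfl
      · rw [show 1 - d i - (1 - e) = -(d i - e) by ring, abs_neg]
    rw [h4]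
    have h5 : 0 ≤ (|d i - e| - δ) ^ 2 := sq_nonneg _
    have h6 : |d i - e| ^ 2 = (d i - e) ^ 2 := sq_abs _
    have h7 : (1 / (2 * δ)) * (d i - e) ^ 2 + δ / 2 - |d i - e| = (|d i - e| - δ) ^ 2 / (2 * δ) := by
      rw [← h6]; field_simp; ring
    have h8 : 0 ≤ (|d i - e| - δ) ^ 2 / (2 * δ) := by positivity
    linarith
  rw [sum_add_distrib, ← mul_sum, sum_const, card_univ, Fintype.card_fin, nsmul_eq_mul] at h3
  have h9 := max_le k hk e he.2
  push_cast at h3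
  rw [h2] at h1
  have e5 : ((k : ℝ) + 1) * (δ / 2) = ((k : ℝ) + 1) * δ / 2 := by ring
  linarith

/-- variance identity -/
lemma var_id (k : ℕ) (d : Fin (k + 1) → ℝ) :
    ∑ i, (d i) ^ 2 = ((k : ℝ) + 1) * ((∑ i, d i) / ((k : ℝ) + 1)) ^ 2 +
      ∑ i, (d i - (∑ j, d j) / ((k : ℝ) + 1)) ^ 2 := by
  set e := (∑ j, d j) / ((k : ℝ) + 1) with he
  have h1 : ∑ j, d j = ((k : ℝ) + 1) * e := by rw [he]; field_simp
  have h2 : ∑ i, (d i - e) ^ 2 = ∑ i, (d i) ^ 2 - 2 * e * ∑ i, d i + ((k : ℝ) + 1) * e ^ 2 := by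
    have : ∀ i, (d i - e) ^ 2 = (d i) ^ 2 - 2 * e * d i + e ^ 2 := fun i => by ring
    rw [sum_congr rfl fun i _ => this i, sum_add_distrib, sum_sub_distrib, ← mul_sum, sum_const,
      card_univ, Fintype.card_fin, nsmul_eq_mul]
    push_cast; ring
  rw [h2, h1]
  ring

end Pool.Agent.KS6_33.FD
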