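import Pool.Agent.KS6_33.FD.Energy
import Pool.Graph.R_seed8.R128.FracDim

/-!
# The lower bound for the fractional dimension of `P(k, n)`
-/

set_option autoImplicit false

namespace Pool.Agent.KS6_33.FD

open Finset Pool.Agent.R128.FracDim

variable {k n : ℕ}

/-- the singletons -/
def sgl (hk : 1 ≤ k) (x : ℕ) (hx : x ∈ Icc 1 n) : ConvGeom k n :=
  ⟨{x}, by simpa using hx, fun i hi h => by
    rw [card_singleton] at h
    have : i = 1 := by omega
    subst this; simp⟩

/-- the set `{1, …, j - 1} ∪ S` -/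
def mir (j : ℕ) (S : Finset ℕ) (hj : 1 ≤ j) (hjn : j ≤ n) (hS : S ⊆ Icc (j + 1) n)
    (hc : S.card = k) : ConvGeom k n :=
  ⟨Icc 1 (j - 1) ∪ S, by
    intro y hy
    rw [mem_union, mem_Icc] at hy
    rw [mem_Icc]
    rcases hy with h | h
    · omega
    · have := mem_Icc.1 (hS h); omega, fun i hi h => by
    have hd : Disjoint (Icc 1 (j - 1)) S := by
      rw [disjoint_left]
      intro y hy hy'
      have h1 := mem_Icc.1 hy
      have h2 := mem_Icc.1 (hS hy')
      omega
    rw [card_union_of_disjoint hd, hc, Nat.card_Icc] at h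
    have : i = j := by omega
    subst this
    exact subset_union_left⟩

lemma le_iff (a b : ConvGeom k n) : a ≤ b ↔ a.1 ⊆ b.1 := Iff.rfl

lemma lin_mono {P : Type} [Fintype P] [PartialOrder P] (L : LinExt P) {a b : P} (h : a ≤ b) :
    L.1 a ≤ L.1 b := by
  rcases h.lt_or_eq with h | h
  · exact (L.2 a b h).le
  · rw [h]

open Classical in
/-- the indicator function of the records of a linear extension -/
noncomputable def rec (hk : 1 ≤ k) (L : LinExt (ConvGeom k n)) (x : ℕ) : ℝ :=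
  if ∃ hx : x ∈ Icc 1 n, ∀ (i : ℕ) (hi : i ∈ Icc 1 n), i < x →
    L.1 (sgl hk i hi) < L.1 (sgl hk x hx) then 1 else 0

lemma rec_mem (hk : 1 ≤ k) (L : LinExt (ConvGeom k n)) (x : ℕ) :
    0 ≤ rec hk L x ∧ rec hk L x ≤ 1 := by
  unfold rec
  split_ifs <;> norm_num

/-- the factors -/
noncomputable def fac (hk : 1 ≤ k) (L : LinExt (ConvGeom k n)) (i : Fin (k + 1)) (x : ℕ) : ℝ :=
  if i = 0 then rec hk L x else 1 - rec hk L x

lemma fac_nonneg (hk : 1 ≤ k) (L : LinExt (ConvGeom k n)) (i : Fin (k + 1)) (x : ℕ) :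
    0 ≤ fac hk L i x := by
  unfold fac
  have := rec_mem hk L x
  split_ifs <;> linarith [this.1, this.2]

lemma pair (hk : 1 ≤ k) (x : Fin (k + 1) → ℕ) (hx : StrictMono x) (hn : ∀ i, x i ∈ Icc 1 n)
    (w : LinExt (ConvGeom k n) → ℝ) (hw : IsFracRealizer (ConvGeom k n) w) :
    1 ≤ ∑ L, w L * ∏ i, fac hk L i (x i) := by
  classical
  have h0 := mem_Icc.1 (hn 0)
  have hc : (univ.image fun i : Fin k => x i.succ).card = k := by
    rw [card_image_of_injective _ (fun i j hij => Fin.succ_injective k (hx.injective hij)),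
      card_univ, Fintype.card_fin]
  have hS : (univ.image fun i : Fin k => x i.succ) ⊆ Icc (x 0 + 1) n := by
    intro y hy
    obtain ⟨i, -, rfl⟩ := mem_image.1 hy
    have h1 := mem_Icc.1 (hn i.succ)
    have h2 := hx (Fin.succ_pos i)
    rw [mem_Icc]
    omega
  set a : ConvGeom k n := sgl hk (x 0) (hn 0) with ha
  set b : ConvGeom k n := mir (x 0) _ h0.1 h0.2 hS hc with hb
  have hab : ¬ a ≤ b := by
    rw [le_iff]
    intro h
    have h1 : x 0 ∈ b.1 := h (mem_singleton_self _)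
    rw [hb] at h1
    rcases mem_union.1 h1 with h2 | h2
    · have := mem_Icc.1 h2; omega
    · have := mem_Icc.1 (hS h2); omega
  have hsb : ∀ i : Fin k, x i.succ ∈ b.1 := fun i =>
    mem_union_right _ (mem_image_of_mem _ (mem_univ i))
  have hba : ¬ b ≤ a := by
    rw [le_iff]
    intro h
    have h1 : x (Fin.succ ⟨0, hk⟩) ∈ a.1 := h (hsb ⟨0, hk⟩)
    have h2 : x (Fin.succ ⟨0, hk⟩) = x 0 := mem_singleton.1 h1
    have h3 := hx (Fin.succ_pos (⟨0, hk⟩ : Fin k))
    omega
  refine (hw.2 a b hab hba).trans ?_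
  rw [sum_filter]
  apply sum_le_sum
  intro L _
  split_ifs with hL
  · have e1 : ∏ i, fac hk L i (x i) = 1 := by
      apply prod_eq_one
      intro i _
      unfold fac
      split_ifs with hi
      · subst hi
        unfold rec
        rw [if_pos]
        refine ⟨hn 0, fun y hy hyx => ?_⟩
        refine lt_of_le_of_lt (lin_mono L ?_) hL
        rw [le_iff]
        intro z hz
        rw [show z = y from mem_singleton.1 hz]
        refine mem_union_left _ (mem_Icc.2 ?_)
        have := mem_Icc.1 hy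
        omega
      · obtain ⟨s, rfl⟩ := Fin.exists_succ_eq.2 hi
        unfold rec
        rw [if_neg, sub_zero]
        rintro ⟨hy, h⟩
        have h1 := h (x 0) (hn 0) (hx (Fin.succ_pos s))
        have h2 : L.1 (sgl hk (x s.succ) hy) ≤ L.1 b := by
          apply lin_mono
          rw [le_iff]
          intro z hz
          rw [show z = x s.succ from mem_singleton.1 hz]
          exact hsb s
        exact absurd (lt_of_lt_of_le h1 h2) (not_lt.2 hL.le)
    rw [e1, mul_one]
  · exact mul_nonneg (hw.1 L) (prod_nonneg fun i _ => fac_nonneg hk L i _)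

/-- averaging over blocks -/
lemma block (hk : 1 ≤ k) (t q : ℕ) (hq : (k + 1) * (q + 1) * (k + 1) ^ t ≤ n)
    (w : LinExt (ConvGeom k n) → ℝ) (hw : IsFracRealizer (ConvGeom k n) w) :
    1 ≤ ∑ L, w L * ∏ i : Fin (k + 1), (if i = 0 then av k (rec hk L) t ((k + 1) * q + i) else
      1 - av k (rec hk L) t ((k + 1) * q + i)) := by
  classical
  set m := (k + 1) ^ t with hm
  have hm0 : 0 < m := by positivity
  have hmR : (0 : ℝ) < m := by exact_mod_cast hm0
  let pt : Fin (k + 1) → ℕ → ℕ := fun i r => ((k + 1) * q + i) * m + r + 1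
  -- all choices of points are increasing sequences
  have h1 : ∀ p ∈ Fintype.piFinset fun _ : Fin (k + 1) => range m,
      1 ≤ ∑ L, w L * ∏ i, fac hk L i (pt i (p i)) := by
    intro p hp
    rw [Fintype.mem_piFinset] at hp
    refine pair hk (fun i => pt i (p i)) ?_ ?_ w hw
    · intro i j hij
      have hi := mem_range.1 (hp i)
      have h2 : ((k + 1) * q + (i : ℕ) + 1) * m ≤ ((k + 1) * q + (j : ℕ)) * m :=
        Nat.mul_le_mul_right m (by have : (i : ℕ) < j := hij; omega)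
      show ((k + 1) * q + (i : ℕ)) * m + p i + 1 < ((k + 1) * q + (j : ℕ)) * m + p j + 1
      rw [Nat.add_mul ((k + 1) * q + (i : ℕ)) 1 m] at h2
      omega
    · intro i
      have hi := mem_range.1 (hp i)
      rw [mem_Icc]
      refine ⟨by show 1 ≤ _ + 1; omega, ?_⟩
      have h2 : ((k + 1) * q + (i : ℕ) + 1) * m ≤ (k + 1) * (q + 1) * m :=
        Nat.mul_le_mul_right m (by have := i.2; rw [Nat.mul_add]; omega)
      show ((k + 1) * q + (i : ℕ)) * m + p i + 1 ≤ n
      rw [Nat.add_mul ((k + 1) * q + (i : ℕ)) 1 m] at h2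
      omega
  have h2 : ∀ L : LinExt (ConvGeom k n), ∏ i : Fin (k + 1), ∑ r ∈ range m, fac hk L i (pt i r) =
      (m : ℝ) ^ (k + 1) * ∏ i : Fin (k + 1), (if i = 0 then av k (rec hk L) t ((k + 1) * q + i) else
        1 - av k (rec hk L) t ((k + 1) * q + i)) := by
    intro L
    have h3 : (m : ℝ) ^ (k + 1) = ∏ _i : Fin (k + 1), (m : ℝ) := by
      rw [prod_const, card_univ, Fintype.card_fin]
    rw [h3, ← prod_mul_distrib]
    refine prod_congr rfl fun i _ => ?_
    have h4 : ∑ r ∈ range m, rec hk L (pt i r) = (m : ℝ) * av k (rec hk L) t ((k + 1) * q + i) := by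
      unfold av bs
      rw [hm]
      push_cast
      field_simp
      rfl
    unfold fac
    split_ifs
    · exact h4
    · rw [sum_sub_distrib, h4]
      simp
      ring
  have h3 : (m : ℝ) ^ (k + 1) * 1 ≤ (m : ℝ) ^ (k + 1) * ∑ L, w L * ∏ i : Fin (k + 1),
      (if i = 0 then av k (rec hk L) t ((k + 1) * q + i) else
        1 - av k (rec hk L) t ((k + 1) * q + i)) := by
    rw [mul_sum]
    have h5 : ∀ L : LinExt (ConvGeom k n), (m : ℝ) ^ (k + 1) * (w L * ∏ i : Fin (k + 1),
        (if i = 0 then av k (rec hk L) t ((k + 1) * q + i) else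
          1 - av k (rec hk L) t ((k + 1) * q + i))) =
        ∑ p ∈ Fintype.piFinset fun _ : Fin (k + 1) => range m,
          w L * ∏ i, fac hk L i (pt i (p i)) := by
      intro L
      rw [mul_left_comm, ← h2, prod_univ_sum, mul_sum]
    rw [sum_congr rfl fun L _ => h5 L, sum_comm]
    refine le_trans (le_of_eq ?_) (sum_le_sum fun p hp => h1 p hp)
    rw [sum_const, Fintype.card_piFinset]
    simp
  exact le_of_mul_le_mul_left h3 (by positivity)

/-- The lower bound for the total weight of a fractional realizer. -/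
lemma total (hk : 1 ≤ k) (T : ℕ) (hT : 1 ≤ T) (hn : (k + 1) ^ T ≤ n) (δ : ℝ) (hδ : 0 < δ)
    (w : LinExt (ConvGeom k n) → ℝ) (hw : IsFracRealizer (ConvGeom k n) w) :
    1 ≤ (∑ L, w L) * ((k : ℝ) ^ k / ((k : ℝ) + 1) ^ (k + 1) + ((k : ℝ) + 1) * δ / 2 +
      ((k : ℝ) + 1) / (2 * δ * T)) := by
  have hk1 : (0 : ℝ) < (k : ℝ) + 1 := by positivity
  have hT0 : (0 : ℝ) < T := by exact_mod_cast hT
  set W := ∑ L, w L with hW
  set C := (k : ℝ) ^ k / ((k : ℝ) + 1) ^ (k + 1) + ((k : ℝ) + 1) * δ / 2 with hC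
  -- one node
  have h1 : ∀ t ∈ range T, ∀ q ∈ range ((k + 1) ^ (T - 1 - t)),
      1 ≤ W * C + (1 / (2 * δ)) * ∑ L, w L * dev k (rec hk L) t q := by
    intro t ht q hq
    rw [mem_range] at ht hq
    have h2 := block (n := n) hk t q (by
      refine le_trans ?_ hn
      have h3 : (k + 1) * (q + 1) * (k + 1) ^ t ≤ (k + 1) * (k + 1) ^ (T - 1 - t) * (k + 1) ^ t :=
        Nat.mul_le_mul_right _ (Nat.mul_le_mul_left _ hq)
      refine h3.trans (le_of_eq ?_)
      rw [← pow_succ', ← pow_add]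
      congr 1
      omega) w hw
    refine h2.trans ?_
    rw [hW, sum_mul, mul_sum, ← sum_add_distrib]
    apply sum_le_sum
    intro L _
    have h4 := node k hk δ hδ (fun i => av k (rec hk L) t ((k + 1) * q + i))
      (fun i => av_mem k _ (rec_mem hk L) _ _) (av k (rec hk L) (t + 1) q)
      (av_mem k _ (rec_mem hk L) _ _)
    refine (mul_le_mul_of_nonneg_left h4 (hw.1 L)).trans (le_of_eq ?_)
    unfold dev
    rw [hC]
    ring
  -- all nodes of one level
  have h2 : ∀ t ∈ range T, 1 / ((k : ℝ) + 1) ≤ W * C / ((k : ℝ) + 1) + (1 / (2 * δ)) *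
      ∑ L, w L * ((∑ q ∈ range ((k + 1) ^ (T - 1 - t)), dev k (rec hk L) t q) /
        ((k : ℝ) + 1) ^ (T - t)) := by
    intro t ht
    have h3 := sum_le_sum (h1 t ht)
    rw [sum_const, card_range, nsmul_eq_mul, mul_one, sum_add_distrib, sum_const, card_range,
      nsmul_eq_mul, ← mul_sum, sum_comm] at h3
    rw [mem_range] at ht
    have e1 : T - t = T - 1 - t + 1 := by omega
    have h4 : (0 : ℝ) < ((k : ℝ) + 1) ^ (T - 1 - t + 1) := by positivity
    have h5 := div_le_div_of_nonneg_right h3 h4.le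
    push_cast at h5
    rw [e1]
    have e2 : ((k : ℝ) + 1) ^ (T - 1 - t) / ((k : ℝ) + 1) ^ (T - 1 - t + 1) = 1 / ((k : ℝ) + 1) := by
      rw [pow_succ]; field_simp
    have e3 : (((k : ℝ) + 1) ^ (T - 1 - t) * (W * C) + (1 / (2 * δ)) *
        ∑ L, ∑ q ∈ range ((k + 1) ^ (T - 1 - t)), w L * dev k (rec hk L) t q) /
          ((k : ℝ) + 1) ^ (T - 1 - t + 1) = W * C / ((k : ℝ) + 1) + (1 / (2 * δ)) *
      ∑ L, w L * ((∑ q ∈ range ((k + 1) ^ (T - 1 - t)), dev k (rec hk L) t q) /
        ((k : ℝ) + 1) ^ (T - 1 - t + 1)) := by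
      rw [add_div, mul_div_right_comm, e2, mul_div_assoc, sum_div]
      congr 1
      · ring
      · congr 1
        refine sum_congr rfl fun L _ => ?_
        rw [← mul_sum, mul_div_assoc]
    rw [e2, e3] at h5
    exact h5
  -- all levels
  have h3 := sum_le_sum h2
  rw [sum_const, card_range, nsmul_eq_mul, sum_add_distrib, sum_const, card_range, nsmul_eq_mul,
    ← mul_sum, sum_comm] at h3
  have h4 : ∑ L, ∑ t ∈ range T, w L * ((∑ q ∈ range ((k + 1) ^ (T - 1 - t)),
      dev k (rec hk L) t q) / ((k : ℝ) + 1) ^ (T - t)) ≤ W := by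
    apply sum_le_sum
    intro L _
    rw [← mul_sum]
    exact mul_le_of_le_one_right (hw.1 L) (energy k _ (rec_mem hk L) T)
  have h5 : (1 / (2 * δ)) * ∑ L, ∑ t ∈ range T, w L * ((∑ q ∈ range ((k + 1) ^ (T - 1 - t)),
      dev k (rec hk L) t q) / ((k : ℝ) + 1) ^ (T - t)) ≤ (1 / (2 * δ)) * W :=
    mul_le_mul_of_nonneg_left h4 (by positivity)
  have h6 : (T : ℝ) * (1 / ((k : ℝ) + 1)) ≤ T * (W * C / ((k : ℝ) + 1)) + (1 / (2 * δ)) * W := by
    linarith
  have h7 := mul_le_mul_of_nonneg_left h6 (show 0 ≤ ((k : ℝ) + 1) / T by positivity)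
  have e1 : ((k : ℝ) + 1) / T * (T * (1 / ((k : ℝ) + 1))) = 1 := by field_simp
  have e2 : ((k : ℝ) + 1) / T * (T * (W * C / ((k : ℝ) + 1)) + (1 / (2 * δ)) * W) =
      W * (C + ((k : ℝ) + 1) / (2 * δ * T)) := by
    field_simp
  rw [e1, e2] at h7
  exact h7

/-- there are fractional realizers -/
lemma exists_realizer (P : Type) [Fintype P] [PartialOrder P] :
    ∃ w : LinExt P → ℝ, IsFracRealizer P w := by
  classical
  refine ⟨fun _ => 1, fun _ => zero_le_one, fun a b hab _ => ?_⟩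
  obtain ⟨L, hL⟩ := exists_linExt P (fun x => if a ≤ x then 1 else 0) (by
    intro x y hxy
    dsimp only
    split_ifs with h1 h2
    · exact le_rfl
    · exact absurd (h1.trans hxy) h2
    · exact Nat.zero_le _
    · exact le_rfl)
  have h := hL b a (by simp [hab])
  rw [sum_const, nsmul_eq_mul, mul_one]
  exact_mod_cast card_pos.2 ⟨L, by simp [h]⟩

/-- **The lower bound.** -/
theorem lower (hk : 1 ≤ k) (s : ℕ) (hs : 1 ≤ s) (hn : (k + 1) ^ (s ^ 2) ≤ n) :
    1 / ((k : ℝ) ^ k / ((k : ℝ) + 1) ^ (k + 1) + ((k : ℝ) + 1) / s) ≤ fdim (ConvGeom k n) := by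
  have hk0 : (0 : ℝ) < k := by exact_mod_cast hk
  have hs0 : (0 : ℝ) < s := by exact_mod_cast hs
  have hc0 : 0 < (k : ℝ) ^ k / ((k : ℝ) + 1) ^ (k + 1) + ((k : ℝ) + 1) / s := by positivity
  have hn2 : 2 ≤ n := by
    refine le_trans ?_ hn
    calc 2 ≤ k + 1 := by omega
      _ = (k + 1) ^ 1 := (pow_one _).symm
      _ ≤ (k + 1) ^ (s ^ 2) := Nat.pow_le_pow_right (by omega) (by nlinarith)
  unfold fdim
  rw [if_neg]
  · apply le_csInf
    · obtain ⟨w, hw⟩ := exists_realizer (ConvGeom k n)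
      exact ⟨_, w, hw, rfl⟩
    · rintro _ ⟨w, hw, rfl⟩
      rw [div_le_iff₀ hc0]
      have h := total hk (s ^ 2) (by nlinarith) hn (1 / s) (by positivity) w hw
      have e : (k : ℝ) ^ k / ((k : ℝ) + 1) ^ (k + 1) + ((k : ℝ) + 1) * (1 / s) / 2 +
          ((k : ℝ) + 1) / (2 * (1 / s) * ((s ^ 2 : ℕ) : ℝ)) =
          (k : ℝ) ^ k / ((k : ℝ) + 1) ^ (k + 1) + ((k : ℝ) + 1) / s := by
        push_cast
        field_simp
        ring
      rw [e] at h
      exact h
  · intro h
    have h1 := h (sgl hk 1 (by simp; omega)) (sgl hk 2 (by simp; omega))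
    rcases h1 with h1 | h1 <;> rw [le_iff] at h1 <;> simp [sgl] at h1

end Pool.Agent.KS6_33.FD
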